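import Mathlib

set_option autoImplicit false

namespace Pool.Agent.Results.MP_6ade77_an.Yes

open Filter Topology Metric Finset ContinuousLinearMap
open scoped ENNReal InnerProductSpace Real

set_option maxHeartbeats 300000

variable {H : Type} [NormedAddCommGroup H] [InnerProductSpace ℂ H] [CompleteSpace H]

/-- Singular number s_(k+1): distance to the operators of rank at most k. -/
noncomputable def sing (X : H →L[ℂ] H) (k : ℕ) : ℝ :=
  sInf {t | ∃ F : H →L[ℂ] H, LinearMap.rank (F : H →ₗ[ℂ] H) ≤ k ∧ t = ‖X - F‖}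

/-- Schatten p-norm, with value infinity outside the Schatten class. -/
noncomputable def sch (p : ℝ) (X : H →L[ℂ] H) : ℝ≥0∞ :=
  (∑' k, ENNReal.ofReal (sing X k) ^ p) ^ (1 / p)

/-- U is a unitary dilation of T along the embedding J. -/
def Dil {K : Type} [NormedAddCommGroup K] [InnerProductSpace ℂ K] [CompleteSpace K]
    (T : H →L[ℂ] H) (J : H →L[ℂ] K) (U : K →L[ℂ] K) : Prop :=
  U ∈ unitary (K →L[ℂ] K) ∧ ∀ n : ℕ, adjoint J ∘L (U ^ n) ∘L J = T ^ n ∧
    adjoint J ∘L (adjoint U ^ n) ∘L J = adjoint T ^ n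

/-- S is the compression of f(U) for a unitary dilation U of T. -/
def FC (f : ℂ → ℂ) (T S : H →L[ℂ] H) : Prop :=
  ∃ (K : Type) (_ : NormedAddCommGroup K) (_ : InnerProductSpace ℂ K) (_ : CompleteSpace K)
    (J : H →L[ℂ] K) (U : K →L[ℂ] K), Dil T J U ∧ S = adjoint J ∘L cfc f U ∘L J

/-- f is the boundary restriction of a disk algebra function. -/
def InA (f : ℂ → ℂ) : Prop :=
  ∃ F : ℂ → ℂ, ContinuousOn F (closedBall 0 1) ∧ DifferentiableOn ℂ F (ball 0 1) ∧
    ∀ z, ‖z‖ = 1 → F z = f z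

/-- The sequence is nondecreasing with limit a. -/
def Up {α : Type} [Preorder α] [TopologicalSpace α] (u : ℕ → α) (a : α) : Prop :=
  Monotone u ∧ Tendsto u atTop (𝓝 a)

noncomputable def ff (z : ℂ) : ℂ := ∑' n : ℕ, ((1 / (n : ℝ) ^ 2 / 2 : ℝ) : ℂ) * (z ^ n + star z ^ n)

theorem sm : Summable fun n : ℕ => 1 / (n : ℝ) ^ 2 := Real.summable_one_div_nat_pow.mpr one_lt_two

theorem ff_eq {z : ℂ} (hz : ‖z‖ = 1) :
    ff z = ((|z.arg| ^ 2 / 4 - π * |z.arg| / 2 + π ^ 2 / 6 : ℝ) : ℂ) := by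
  have p := Real.pi_pos
  have a := hasSum_one_div_nat_pow_mul_cos (k := 1) one_ne_zero (x := |z.arg| / (2 * π))
    ⟨by positivity, by rw [div_le_one (by positivity)]; linarith [z.abs_arg_le_pi]⟩
  have b := (Complex.hasSum_ofReal.mpr a).tsum_eq
  convert b using 2
  · unfold ff
    refine tsum_congr fun n => ?_
    have : z = Complex.exp (z.arg * Complex.I) := by simpa [hz] using z.norm_mul_exp_arg_mul_I.symm
    rw [show 2 * π * n * (|z.arg| / (2 * π)) = |n * z.arg| by rw [abs_mul, Nat.abs_cast]; field_simp,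
      Real.cos_abs, ← star_pow, Complex.star_def, Complex.add_conj]
    have e : (z ^ n).re = Real.cos (n * z.arg) := by
      conv_lhs => rw [this, ← Complex.exp_nat_mul, ← mul_assoc, ← Complex.ofReal_natCast,
        ← Complex.ofReal_mul, Complex.exp_ofReal_mul_I_re]
    rw [e]; push_cast; ring
  · simp [Polynomial.bernoulli, sum_range_succ, bernoulli_eq_bernoulli'_of_ne_one]
    field_simp; rw [← sq_abs z.arg]; ring

theorem lip : LipschitzOnWith 8 ff (sphere 0 1) := by
  refine .of_dist_le_mul fun z hz w hw => ?_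
  rw [mem_sphere_zero_iff_norm] at hz hw
  have z0 : z ≠ 0 := by rintro rfl; simp at hz
  have w0 : w ≠ 0 := by rintro rfl; simp at hw
  have a1 := InnerProductGeometry.angle_le_angle_add_angle 1 z w
  have a2 := InnerProductGeometry.angle_le_angle_add_angle 1 w z
  have a3 := Complex.angle_le_mul_norm_sub hz hw
  rw [Complex.angle_one_left z0, Complex.angle_one_left w0] at a1 a2
  rw [InnerProductGeometry.angle_comm] at a2
  rw [ff_eq hz, ff_eq hw, dist_eq_norm, dist_eq_norm, ← Complex.ofReal_sub, Complex.norm_real,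
    show ∀ a b : ℝ, a ^ 2 / 4 - π * a / 2 + π ^ 2 / 6 - (b ^ 2 / 4 - π * b / 2 + π ^ 2 / 6) =
      (a - b) * ((a + b) / 4 - π / 2) by intros; ring, norm_mul]
  have := Real.pi_le_four
  have n := norm_nonneg (z - w)
  have b : ‖|z.arg| - |w.arg|‖ ≤ 2 * ‖z - w‖ := abs_le.mpr ⟨by nlinarith, by nlinarith⟩
  refine (mul_le_mul b (show _ ≤ 2 from abs_le.mpr ⟨?_, ?_⟩) (abs_nonneg _) (by positivity)).trans
    (by push_cast; linarith) <;>
  linarith [abs_nonneg z.arg, abs_nonneg w.arg, z.abs_arg_le_pi, w.abs_arg_le_pi]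

theorem nda : ¬ InA ff := by
  rintro ⟨F, h1, h2, h3⟩
  have d : DiffContOnCl ℂ F (ball 0 1) := ⟨h2, by rwa [closure_ball _ one_ne_zero]⟩
  have k : ∀ c : ℝ, ∀ z ∈ ball (0 : ℂ) 1, -(c * (F z).im) ≤ 0 := fun c z hz => by
    have := Complex.norm_le_of_forall_mem_frontier_norm_le isBounded_ball
      (Complex.differentiable_exp.comp_diffContOnCl (d.const_smul (c * Complex.I))) (C := 1)
      (fun w hw => by
        rw [frontier_ball _ one_ne_zero, mem_sphere_zero_iff_norm] at hw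
        simp [h3 w hw, ff_eq hw, Complex.norm_exp, -Complex.ofReal_add, -Complex.ofReal_sub])
      (subset_closure hz)
    simpa [Complex.norm_exp] using this
  obtain ⟨c, hc⟩ := (h2.analyticOnNhd isOpen_ball).eq_const_of_im_eq_const (c₀ := 0)
    (fun z hz => by linarith [k 1 z hz, k (-1) z hz]) isOpen_ball (isConnected_ball one_pos)
  have e := Set.EqOn.of_subset_closure (g := fun _ => c) hc h1 continuousOn_const ball_subset_closedBall
    (closure_ball (0 : ℂ) one_ne_zero).ge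
  have e1 := (e (x := 1) (by simp)).trans (e (x := -1) (by simp)).symm
  rw [h3 _ (by simp), h3 _ (by simp), ff_eq (by simp), ff_eq (by simp), Complex.ofReal_inj] at e1
  simp [abs_of_pos Real.pi_pos] at e1
  nlinarith [Real.pi_pos]

theorem FC.lim {T S : H →L[ℂ] H} (h : FC ff T S) : Tendsto (fun N => ∑ n ∈ range N,
    ((1 / (n : ℝ) ^ 2 / 2 : ℝ) : ℂ) • (T ^ n + adjoint T ^ n)) atTop (𝓝 S) := by
  obtain ⟨K, _, _, _, J, U, ⟨hU, h⟩, rfl⟩ := h
  have t := tendsto_cfc_fun (a := U) (tendstoUniformlyOn_tsum_nat sm (f := fun n (z : ℂ) =>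
    ((1 / (n : ℝ) ^ 2 / 2 : ℝ) : ℂ) * (z ^ n + star z ^ n)) fun n z hz => by
      have := mem_sphere_zero_iff_norm.mp (spectrum.subset_circle_of_unitary hU hz)
      rw [norm_mul, Complex.norm_real, Real.norm_of_nonneg (by positivity)]
      have : ‖z ^ n + star z ^ n‖ ≤ 2 := (norm_add_le _ _).trans (by simp [this]; norm_num)
      calc _ ≤ 1 / (n : ℝ) ^ 2 / 2 * 2 := by gcongr
        _ = _ := by ring) (.of_forall fun N => by fun_prop)
  have n : IsStarNormal U := Unitary.coe_isStarNormal ⟨U, hU⟩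
  refine (((show Continuous fun X : K →L[ℂ] K => adjoint J ∘L X ∘L J by fun_prop).tendsto _).comp
    t).congr fun N => ?_
  rw [Function.comp_apply, ← sum_fn, cfc_sum _ _ _ (fun i _ => by fun_prop), finsetSum_comp,
    comp_finsetSum]
  refine sum_congr rfl fun n _ => ?_
  rw [cfc_const_mul .., cfc_add .., cfc_pow_id U, cfc_pow _ _ U, cfc_star_id (a := U), smul_comp, comp_smul,
    add_comp, comp_add, (h n).1, star_eq_adjoint, (h n).2]

noncomputable def perm {ι : Type} (σ : ι ≃ ι) : lp (fun _ : ι => H) 2 →ₗᵢ[ℂ] lp (fun _ : ι => H) 2 where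
  toFun f := ⟨fun i => f (σ i), memℓp_gen (σ.summable_iff.mpr ((lp.memℓp f).summable (by simp)))⟩
  map_add' _ _ := rfl
  map_smul' _ _ := rfl
  norm_map' f := by
    rw [lp.norm_eq_tsum_rpow (by simp), lp.norm_eq_tsum_rpow (by simp) f]
    exact congrArg (· ^ _) (σ.tsum_eq fun i => ‖f i‖ ^ _)

theorem perm_u {ι : Type} (σ : ι ≃ ι) : (perm (H := H) σ).toContinuousLinearMap ∈
    unitary (lp (fun _ : ι => H) 2 →L[ℂ] lp (fun _ : ι => H) 2) := by
  have : (perm (H := H) σ.symm).toContinuousLinearMap = adjoint (perm σ).toContinuousLinearMap :=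
    (eq_adjoint_iff _ _).mpr fun x y => by
      rw [lp.inner_eq_tsum, lp.inner_eq_tsum, ← σ.tsum_eq]
      exact tsum_congr fun i => congrArg (⟪x ·, y (σ i)⟫_ℂ) (σ.symm_apply_apply i)
  rw [Unitary.mem_iff, star_eq_adjoint, ← this]
  exact ⟨ContinuousLinearMap.ext fun f => lp.ext (funext fun i => congrArg f (σ.apply_symm_apply i)),
    ContinuousLinearMap.ext fun f => lp.ext (funext fun i => congrArg f (σ.symm_apply_apply i))⟩

omit [CompleteSpace H] in
theorem pw {P : H →L[ℂ] H} (hP : P * P = P) (r : ℂ) (n : ℕ) :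
    (1 - (1 - r) • P) ^ n = 1 - (1 - r ^ n) • P := by
  induction n with
  | zero => simp
  | succ n ih => rw [pow_succ, ih, sub_mul, mul_sub, mul_sub, smul_mul_smul_comm, hP]; simp; module

theorem dil {P : H →L[ℂ] H} (hP : IsStarProjection P) {r : ℝ} (h0 : 0 ≤ r) (h1 : r < 1) :
    ∃ S, FC ff (1 - (1 - r : ℂ) • P) S := by
  let a : ℤ → ℝ := fun j => if 0 ≤ j then √(1 - r ^ 2) * r ^ j.toNat else 0
  let w : ℤ ⊕ Unit → H →L[ℂ] H := Sum.elim (fun j => (a j : ℂ) • P) fun _ => 1 - P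
  let σ : ℤ ⊕ Unit ≃ ℤ ⊕ Unit := (Equiv.addRight 1).sumCongr (.refl _)
  have pp := hP.isIdempotentElem.eq
  have sa : ∀ x y, ⟪P x, y⟫_ℂ = ⟪x, P y⟫_ℂ := hP.isSelfAdjoint.isSymmetric
  have p2 : ∀ x, P (P x) = P x := fun x => congr($pp x)
  have k : ∀ (n : ℕ) x y, HasSum (fun i => ⟪w i y, w ((σ ^ n) i) x⟫_ℂ)
      ⟪y, ((1 - (1 - r : ℂ) • P) ^ n) x⟫_ℂ := fun n x y => by
    have s1 : ∀ j, (σ ^ n) (.inl j) = .inl (j + n) := fun j => by
      induction n with
      | zero => simp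
      | succ n ih => rw [pow_succ', Equiv.Perm.mul_apply, ih]; simp [σ, add_assoc]
    have s2 : ∀ j, (σ ^ n) (.inr j) = .inr j := fun j => Equiv.Perm.pow_apply_eq_self_of_apply_eq_self rfl n
    have g := Complex.hasSum_ofReal.mpr ((hasSum_geometric_of_lt_one (sq_nonneg r)
      (by nlinarith)).mul_left ((1 - r ^ 2) * r ^ n))
    rw [mul_right_comm, mul_inv_cancel₀ (by nlinarith), one_mul] at g
    have q : √(1 - r ^ 2) * √(1 - r ^ 2) = 1 - r ^ 2 := Real.mul_self_sqrt (by nlinarith)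
    have g1 : HasSum (fun j : ℤ => ⟪w (.inl j) y, w ((σ ^ n) (.inl j)) x⟫_ℂ)
        ((r ^ n : ℝ) * ⟪y, P x⟫_ℂ + 0) := by
      refine .of_nat_of_neg_add_one ?_ ?_
      · refine (congrArg (HasSum · _) (funext fun j => ?_)).mp (g.mul_right ⟪y, P x⟫_ℂ)
        symm
        have : (0 : ℤ) ≤ j + n := by positivity
        have e : ((j : ℤ) + n).toNat = j + n := by omega
        simp only [s1, w, a, Sum.elim_inl, smul_apply, inner_smul_left, inner_smul_right, sa, p2,
          Complex.conj_ofReal, this, e, Int.natCast_nonneg, if_true, Int.toNat_natCast]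
        rw [← mul_assoc, ← Complex.ofReal_mul]
        congr 2
        linear_combination r ^ (2 * j + n) * q
      · convert hasSum_zero with j
        simp only [w, a, Sum.elim_inl, if_neg (show ¬ (0 : ℤ) ≤ -(j + 1) by omega)]
        simp
    convert HasSum.sum (f := fun i => ⟪w i y, w ((σ ^ n) i) x⟫_ℂ) g1 (hasSum_unique _) using 1
    simp [pw pp, s2, w, sa, p2]
    ring
  have k0 : ∀ x, HasSum (fun i => ‖w i x‖ ^ (2 : ℝ≥0∞).toReal) (‖x‖ ^ (2 : ℝ≥0∞).toReal) := fun x =>
    Complex.hasSum_ofReal.mp (by simpa [inner_self_eq_norm_sq_to_K] using k 0 x x)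
  let J : H →L[ℂ] lp (fun _ : ℤ ⊕ Unit => H) 2 := LinearMap.mkContinuous
    { toFun x := ⟨fun i => w i x, memℓp_gen (k0 x).summable⟩
      map_add' x y := lp.ext (funext fun i => map_add (w i) x y)
      map_smul' c x := lp.ext (funext fun i => map_smul (w i) c x) } 1 fun x =>
    lp.norm_le_of_tsum_le (by simp) (by simp) (by rw [one_mul]; exact (k0 x).tsum_eq.le)
  let U := (perm (H := H) σ).toContinuousLinearMap
  have u : ∀ (n : ℕ) f i, (U ^ n) f i = f ((σ ^ n) i) := fun n => by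
    induction n with
    | zero => intros; rfl
    | succ n ih => intro f i; rw [pow_succ', pow_succ, Equiv.Perm.mul_apply, ← ih]; rfl
  have d : ∀ n : ℕ, adjoint J ∘L (U ^ n) ∘L J = (1 - (1 - r : ℂ) • P) ^ n := fun n => by
    ext x
    refine ext_inner_left ℂ fun y => ?_
    rw [comp_apply, adjoint_inner_right, lp.inner_eq_tsum, ← (k n x y).tsum_eq]
    exact tsum_congr fun i => by rw [comp_apply, u]; rfl
  refine ⟨_, _, _, _, inferInstance, J, U, ⟨perm_u σ, fun n => ⟨d n, ?_⟩⟩, rfl⟩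
  have := congrArg adjoint (d n)
  rwa [adjoint_comp, adjoint_comp, adjoint_adjoint, comp_assoc, ← star_eq_adjoint (U ^ n),
    ← star_eq_adjoint (_ ^ n), star_pow, star_pow] at this

omit [CompleteSpace H] in
theorem sch_eq {p : ℝ} (hp : 0 < p) (V : Submodule ℂ H) [FiniteDimensional ℂ V] (c : ℂ) :
    sch p (c • V.starProjection) = ENNReal.ofReal (‖c‖ * Module.finrank ℂ V ^ (1 / p)) := by
  have b : ∀ k : ℕ, BddBelow {t | ∃ F : H →L[ℂ] H, LinearMap.rank (F : H →ₗ[ℂ] H) ≤ k ∧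
      t = ‖c • V.starProjection - F‖} := fun k => ⟨0, by rintro _ ⟨F, -, rfl⟩; exact norm_nonneg _⟩
  have e : ∀ k, sing (c • V.starProjection) k = if k < Module.finrank ℂ V then ‖c‖ else 0 := fun k => by
    split_ifs with h
    · refine le_antisymm ((csInf_le (b k) ⟨0, by simp, rfl⟩).trans ?_)
        (le_csInf ⟨_, 0, by simp, rfl⟩ ?_)
      · rw [sub_zero, norm_smul]
        exact mul_le_of_le_one_right (norm_nonneg _) V.starProjection_norm_le
      rintro _ ⟨F, hF, rfl⟩
      obtain ⟨v, v1, v0⟩ : ∃ v ∈ LinearMap.ker ((F : H →ₗ[ℂ] H) ∘ₗ V.subtype), v ≠ 0 := by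
        refine (Submodule.ne_bot_iff _).mp fun z => h.not_ge ?_
        have := (rank_range_of_injective _ (LinearMap.ker_eq_bot.mp z)).ge.trans
          ((LinearMap.rank_comp_le_left _ _).trans hF)
        rwa [← Module.finrank_eq_rank, Nat.cast_le] at this
      have := (c • V.starProjection - F).le_opNorm v
      rw [sub_apply, show F v = 0 from v1, smul_apply, Submodule.starProjection_mem_subspace_eq_self,
        sub_zero, norm_smul] at this
      exact le_of_mul_le_mul_right this (by simpa using v0)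
    · refine le_antisymm (csInf_le (b k) ⟨c • V.starProjection, ?_, by simp⟩)
        (Real.sInf_nonneg (by rintro _ ⟨F, -, rfl⟩; exact norm_nonneg _))
      refine (Submodule.rank_mono (t := V) ?_).trans ?_
      · rintro _ ⟨x, rfl⟩
        exact V.smul_mem c (V.starProjection_apply_mem x)
      · rw [← Module.finrank_eq_rank, Nat.cast_le]; omega
  rw [sch, tsum_eq_sum (s := range (Module.finrank ℂ V)) fun k hk => by
      rw [e, if_neg (by simpa using hk)]; simp [hp],
    sum_congr rfl fun k hk => by rw [e, if_pos (mem_range.mp hk)], sum_const, card_range, nsmul_eq_mul,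
    ENNReal.mul_rpow_of_nonneg _ _ (by positivity), ← ENNReal.rpow_mul, mul_one_div_cancel hp.ne',
    ENNReal.rpow_one, ENNReal.ofReal_mul (norm_nonneg _), mul_comm,
    ← ENNReal.ofReal_rpow_of_nonneg (by positivity) (by positivity), ENNReal.ofReal_natCast]

noncomputable def D (r : ℝ) : ℝ := ∑' n : ℕ, 1 / (n : ℝ) ^ 2 * ∑ i ∈ range n, r ^ i

theorem Ds {r : ℝ} (h0 : 0 ≤ r) (h1 : r < 1) :
    Summable fun n : ℕ => 1 / (n : ℝ) ^ 2 * ∑ i ∈ range n, r ^ i :=
  .of_nonneg_of_le (fun n => by positivity) (fun n => by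
    gcongr; exact sum_le_hasSum _ (fun i _ => by positivity) (hasSum_geometric_of_lt_one h0 h1)) (sm.mul_right (1 - r)⁻¹)

theorem result (hH : ¬ FiniteDimensional ℂ H) (p : ℝ) (hp : 1 < p) :
    ∃ (f : ℂ → ℂ) (T₁ : H →L[ℂ] H) (T₀ : ℕ → H →L[ℂ] H),
      (∃ C, LipschitzOnWith C f (sphere 0 1)) ∧ ¬ InA f ∧
      ‖T₁‖ ≤ 1 ∧ (∀ n, ‖T₀ n‖ ≤ 1) ∧ (⨆ n, sch p (T₁ - T₀ n)) < ⊤ ∧ Up (fun n => ‖T₀ n‖) 1 ∧
      (∃ S, FC f T₁ S) ∧ (∀ n, ∃ S, FC f (T₀ n) S) ∧
      ∀ (S₁ : H →L[ℂ] H) (S₀ : ℕ → H →L[ℂ] H), FC f T₁ S₁ → (∀ n, FC f (T₀ n) (S₀ n)) →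
        (∀ n, sch p (S₁ - S₀ n) < ⊤) ∧ Up (fun n => sch p (S₁ - S₀ n)) ⊤ := by
  have : ∀ n : ℕ, ∃ V : Submodule ℂ H, ∃ _ : FiniteDimensional ℂ V, Module.finrank ℂ V = n + 1 :=
    fun n => by
      obtain ⟨v, hv⟩ := exists_linearIndependent_of_le_rank (R := ℂ) (M := H) (n := n + 1)
        ((Cardinal.natCast_lt_aleph0).le.trans (not_lt.mp (mt Module.rank_lt_aleph0_iff.mp hH)))
      exact ⟨_, .span_of_finite ℂ (Set.finite_range v), by simpa using finrank_span_eq_card hv⟩
  choose V _ hV using this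
  have p0 : 0 < p := by linarith
  obtain ⟨s, hs⟩ : ∃ s : ℕ → ℝ, ∀ n, s n = (((n + 1 : ℕ) : ℝ) ^ (1 / p))⁻¹ := ⟨_, fun _ => rfl⟩
  have s0 : ∀ n, 0 < s n := fun n => by rw [hs]; positivity
  have s1 : ∀ n, s n ≤ 1 := fun n => by
    rw [hs]; exact inv_le_one_of_one_le₀ (Real.one_le_rpow (by simp) (by positivity))
  have s2 : Antitone s := fun m n h => by rw [hs, hs]; gcongr
  have s3 : Tendsto s atTop (𝓝 0) := funext hs ▸ tendsto_inv_atTop_zero.comp
    ((tendsto_rpow_atTop (by positivity)).comp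
      (tendsto_natCast_atTop_atTop.comp (tendsto_add_atTop_nat 1)))
  have s4 : ∀ n (c : ℝ), 0 ≤ c → sch p (((s n * c : ℝ) : ℂ) • (V n).starProjection) =
      ENNReal.ofReal c := fun n c hc => by
    rw [sch_eq p0, hV, Complex.norm_real, Real.norm_of_nonneg (mul_nonneg (s0 n).le hc),
      mul_right_comm, hs, inv_mul_cancel₀ (by positivity), one_mul]
  have n1 : ∀ n, ‖1 - (1 - (1 - s n : ℝ) : ℂ) • (V n).starProjection‖ = 1 := fun n => by
    refine le_antisymm (opNorm_le_bound _ zero_le_one fun x => ?_) ?_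
    · rw [show (1 - (1 - (1 - s n : ℝ) : ℂ) • (V n).starProjection) x = ((1 - s n : ℝ) : ℂ) • x +
        (s n : ℂ) • (V n)ᗮ.starProjection x by simp [Submodule.starProjection_orthogonal]; module]
      refine (norm_add_le _ _).trans ?_
      rw [norm_smul, norm_smul, Complex.norm_real, Complex.norm_real, Real.norm_of_nonneg (s0 n).le,
        Real.norm_of_nonneg (sub_nonneg.mpr (s1 n))]
      nlinarith [(V n)ᗮ.norm_starProjection_apply_le x, s0 n]
    · obtain ⟨v, v1, v0⟩ : ∃ v ∈ (V n)ᗮ, v ≠ 0 := (Submodule.ne_bot_iff _).mp fun z => hH (by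
        have := ‹∀ n, FiniteDimensional ℂ (V n)› n
        rw [Submodule.orthogonal_eq_bot_iff.mp z] at this
        exact .of_surjective (⊤ : Submodule ℂ H).subtype fun x => ⟨⟨x, trivial⟩, rfl⟩)
      have := (1 - (1 - (1 - s n : ℝ) : ℂ) • (V n).starProjection).le_opNorm v
      rw [sub_apply, smul_apply, (V n).starProjection_apply_eq_zero_iff.mpr v1, smul_zero,
        sub_zero] at this
      exact (le_mul_iff_one_le_left (norm_pos_iff.mpr v0)).mp this
  refine ⟨ff, 1, fun n => 1 - (1 - (1 - s n : ℝ) : ℂ) • (V n).starProjection, ⟨_, lip⟩, nda,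
    norm_id_le, fun n => (n1 n).le, ?_, by simp only [n1]; exact ⟨monotone_const, tendsto_const_nhds⟩,
    by simpa using dil (H := H) (.zero _) le_rfl one_pos,
    fun n => dil (isStarProjection_starProjection (U := V n)) (sub_nonneg.mpr (s1 n)) (by linarith [s0 n]),
    fun S₁ S₀ a b => ?_⟩
  · refine (iSup_le fun n => ?_).trans_lt (ENNReal.ofReal_lt_top (r := 1))
    rw [← s4 n 1 zero_le_one]
    simp
  have r0 := fun n => sub_nonneg.mpr (s1 n)
  have r1 : ∀ n, 1 - s n < 1 := fun n => by linarith [s0 n]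
  have e : ∀ n, sch p (S₁ - S₀ n) = ENNReal.ofReal (D (1 - s n)) := fun n => by
    rw [← s4 n (D (1 - s n)) (tsum_nonneg fun k => by have := r0 n; positivity)]
    congr 1
    refine tendsto_nhds_unique (a.lim.sub (b n).lim) (((Complex.hasSum_ofReal.mpr
      ((Ds (r0 n) (r1 n)).hasSum.mul_left (s n))).smul_const _).tendsto_sum_nat.congr fun N => ?_)
    rw [← sum_sub_distrib]
    refine sum_congr rfl fun k _ => ?_
    have P := (isStarProjection_starProjection (U := V n))
    rw [← star_eq_adjoint, ← star_eq_adjoint, star_one, star_sub, star_one, star_smul,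
      P.isSelfAdjoint.star_eq, star_sub, star_one, Complex.star_def, Complex.conj_ofReal,
      pw P.isIdempotentElem.eq, one_pow, mul_left_comm,
      show s n * ∑ i ∈ range k, (1 - s n) ^ i = 1 - (1 - s n) ^ k by
        rw [← mul_neg_geom_sum]; ring]
    push_cast
    module
  simp only [e]
  refine ⟨fun _ => ENNReal.ofReal_lt_top, fun m n h => ENNReal.ofReal_le_ofReal
    ((Ds (r0 m) (r1 m)).tsum_le_tsum (fun k => ?_) (Ds (r0 n) (r1 n))),
    ENNReal.tendsto_ofReal_atTop.comp (tendsto_atTop.mpr fun C => ?_)⟩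
  · have := r0 m
    gcongr
    exact s2 h
  obtain ⟨N, hN⟩ := (Real.tendsto_sum_range_one_div_nat_succ_atTop.eventually_gt_atTop C).exists
  have t : Tendsto (fun n => ∑ k ∈ range (N + 1), 1 / (k : ℝ) ^ 2 * ∑ i ∈ range k, (1 - s n) ^ i)
      atTop (𝓝 (∑ k ∈ range (N + 1), 1 / (k : ℝ) ^ 2 * ∑ i ∈ range k, (1 - 0) ^ i)) :=
    tendsto_finsetSum _ fun k _ => (tendsto_finsetSum _ fun i _ =>
      (s3.const_sub 1).pow i).const_mul _
  refine (t.eventually_const_lt (hN.trans_eq ?_)).mono fun n h => h.le.trans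
    ((Ds (r0 n) (r1 n)).sum_le_tsum _ fun k _ => by have := r0 n; positivity)
  rw [sum_range_succ']
  simp only [CharP.cast_eq_zero, range_zero, sum_empty, mul_zero, add_zero]
  exact sum_congr rfl fun k _ => by simp; field_simp

end Pool.Agent.Results.MP_6ade77_an.Yes
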